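import Pool.Agent.DFM.Stmts

/-!
# Squad DFM, row SUP: joins
-/

set_option autoImplicit false

namespace Pool.Agent.DFM.H51

open Pool.Agent.DFM

theorem sup_low_low {I J : Type} (w : I → J → ℕ) (G G' : Finset I) :
    ∃ z : El I J, Ok w z ∧ le (El.low G) z ∧ le (El.low G') z ∧
      ∀ t : El I J, Ok w t → le (El.low G) t → le (El.low G') t → le z t := by
  classical
  by_cases h : (G ∩ G').Nonempty
  · refine ⟨El.low (G ∩ G'), h, Finset.inter_subset_left, Finset.inter_subset_right, ?_⟩
    intro t ht h1 h2
    cases t with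
    | low K => exact Finset.subset_inter h1 h2
    | mid => trivial
    | top F => trivial
    | ch i j n => exact Finset.mem_inter.2 ⟨h1, h2⟩
  · refine ⟨El.mid, trivial, trivial, trivial, ?_⟩
    intro t ht h1 h2
    cases t with
    | low K =>
      have h3 : K.Nonempty := ht
      have h4 : K ⊆ G ∩ G' := Finset.subset_inter h1 h2
      exact absurd (h3.mono h4) h
    | mid => trivial
    | top F => trivial
    | ch i j n => exact absurd ⟨i, Finset.mem_inter.2 ⟨h1, h2⟩⟩ h

theorem sup_low_mid {I J : Type} (w : I → J → ℕ) (G : Finset I) :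
    ∃ z : El I J, Ok w z ∧ le (El.low G) z ∧ le El.mid z ∧
      ∀ t : El I J, Ok w t → le (El.low G) t → le El.mid t → le z t :=
  ⟨El.mid, trivial, trivial, trivial, fun _ _ _ h2 => h2⟩

theorem sup_low_top {I J : Type} (w : I → J → ℕ) (G : Finset I) (F : Finset J)
    (hF : F.Nonempty) :
    ∃ z : El I J, Ok w z ∧ le (El.low G) z ∧ le (El.top F) z ∧
      ∀ t : El I J, Ok w t → le (El.low G) t → le (El.top F) t → le z t :=
  ⟨El.top F, hF, trivial, Finset.Subset.refl F, fun _ _ _ h2 => h2⟩

theorem sup_low_ch {I J : Type} (w : I → J → ℕ) (G : Finset I) (i : I) (j : J) (n : ℕ)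
    (hn : n < w i j) :
    ∃ z : El I J, Ok w z ∧ le (El.low G) z ∧ le (El.ch i j n) z ∧
      ∀ t : El I J, Ok w t → le (El.low G) t → le (El.ch i j n) t → le z t := by
  classical
  by_cases h : i ∈ G
  · exact ⟨El.ch i j n, hn, h, ⟨rfl, rfl, le_refl n⟩, fun _ _ _ h2 => h2⟩
  · refine ⟨El.top {j}, Finset.singleton_nonempty j, trivial, Finset.mem_singleton_self j, ?_⟩
    intro t ht h1 h2
    cases t with
    | low K => exact absurd h2 id
    | mid => exact absurd h2 id
    | top F => exact Finset.singleton_subset_iff.2 h2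
    | ch i' j' n' =>
      obtain ⟨h3, h4, h5⟩ := h2
      subst h3
      exact absurd h1 h

theorem sup_mid_top {I J : Type} (w : I → J → ℕ) (F : Finset J) (hF : F.Nonempty) :
    ∃ z : El I J, Ok w z ∧ le El.mid z ∧ le (El.top F) z ∧
      ∀ t : El I J, Ok w t → le El.mid t → le (El.top F) t → le z t :=
  ⟨El.top F, hF, trivial, Finset.Subset.refl F, fun _ _ _ h2 => h2⟩

theorem sup_mid_ch {I J : Type} (w : I → J → ℕ) (i : I) (j : J) (n : ℕ) :
    ∃ z : El I J, Ok w z ∧ le El.mid z ∧ le (El.ch i j n) z ∧
      ∀ t : El I J, Ok w t → le El.mid t → le (El.ch i j n) t → le z t := by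
  refine ⟨El.top {j}, Finset.singleton_nonempty j, trivial, Finset.mem_singleton_self j, ?_⟩
  intro t ht h1 h2
  cases t with
  | low K => exact absurd h2 id
  | mid => exact absurd h2 id
  | top F => exact Finset.singleton_subset_iff.2 h2
  | ch i' j' n' => exact absurd h1 id

theorem sup_top_top {I J : Type} (w : I → J → ℕ) (F F' : Finset J) (hF : F.Nonempty) :
    ∃ z : El I J, Ok w z ∧ le (El.top F) z ∧ le (El.top F') z ∧
      ∀ t : El I J, Ok w t → le (El.top F) t → le (El.top F') t → le z t := by
  classical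
  refine ⟨El.top (F ∪ F'), hF.mono Finset.subset_union_left, Finset.subset_union_left,
    Finset.subset_union_right, ?_⟩
  intro t ht h1 h2
  cases t with
  | low K => exact absurd h1 id
  | mid => exact absurd h1 id
  | top K => exact Finset.union_subset h1 h2
  | ch i' j' n' => exact absurd h1 id

theorem sup_top_ch {I J : Type} (w : I → J → ℕ) (F : Finset J) (i : I) (j : J) (n : ℕ) :
    ∃ z : El I J, Ok w z ∧ le (El.top F) z ∧ le (El.ch i j n) z ∧
      ∀ t : El I J, Ok w t → le (El.top F) t → le (El.ch i j n) t → le z t := by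
  classical
  refine ⟨El.top (insert j F), Finset.insert_nonempty j F, Finset.subset_insert j F,
    Finset.mem_insert_self j F, ?_⟩
  intro t ht h1 h2
  cases t with
  | low K => exact absurd h1 id
  | mid => exact absurd h1 id
  | top K => exact Finset.insert_subset h2 h1
  | ch i' j' n' => exact absurd h1 id

theorem sup_ch_ch {I J : Type} (w : I → J → ℕ) (i : I) (j : J) (n : ℕ) (i' : I) (j' : J) (n' : ℕ)
    (hn : n < w i j) (hn' : n' < w i' j') :
    ∃ z : El I J, Ok w z ∧ le (El.ch i j n) z ∧ le (El.ch i' j' n') z ∧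
      ∀ t : El I J, Ok w t → le (El.ch i j n) t → le (El.ch i' j' n') t → le z t := by
  classical
  by_cases h : i = i' ∧ j = j'
  · obtain ⟨h1, h2⟩ := h
    subst h1 h2
    refine ⟨El.ch i j (max n n'), max_lt hn hn', ⟨rfl, rfl, le_max_left n n'⟩,
      ⟨rfl, rfl, le_max_right n n'⟩, ?_⟩
    intro t ht h1 h2
    cases t with
    | low K => exact absurd h1 id
    | mid => exact absurd h1 id
    | top K => exact h1
    | ch i2 j2 n2 =>
      obtain ⟨h3, h4, h5⟩ := h1
      obtain ⟨_, _, h6⟩ := h2
      exact ⟨h3, h4, max_le h5 h6⟩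
  · refine ⟨El.top {j, j'}, Finset.insert_nonempty j {j'}, Finset.mem_insert_self j {j'},
      Finset.mem_insert_of_mem (Finset.mem_singleton_self j'), ?_⟩
    intro t ht h1 h2
    cases t with
    | low K => exact absurd h1 id
    | mid => exact absurd h1 id
    | top K => exact Finset.insert_subset h1 (Finset.singleton_subset_iff.2 h2)
    | ch i2 j2 n2 =>
      obtain ⟨h3, h4, h5⟩ := h1
      obtain ⟨h6, h7, h8⟩ := h2
      exact absurd ⟨h3.trans h6.symm, h4.trans h7.symm⟩ h

theorem flip {I J : Type} {w : I → J → ℕ} {x y : El I J}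
    (h : ∃ z : El I J, Ok w z ∧ le x z ∧ le y z ∧
      ∀ t : El I J, Ok w t → le x t → le y t → le z t) :
    ∃ z : El I J, Ok w z ∧ le y z ∧ le x z ∧
      ∀ t : El I J, Ok w t → le y t → le x t → le z t := by
  obtain ⟨z, h1, h2, h3, h4⟩ := h
  exact ⟨z, h1, h3, h2, fun t ht h5 h6 => h4 t ht h6 h5⟩

theorem sup : SupStmt := by
  intro I J w x y hx hy
  cases x with
  | low G =>
    cases y with
    | low G' => exact sup_low_low w G G'
    | mid => exact sup_low_mid w G
    | top F => exact sup_low_top w G F hy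
    | ch i j n => exact sup_low_ch w G i j n hy
  | mid =>
    cases y with
    | low G' => exact flip (sup_low_mid w G')
    | mid => exact ⟨El.mid, trivial, trivial, trivial, fun _ _ _ h2 => h2⟩
    | top F => exact sup_mid_top w F hy
    | ch i j n => exact sup_mid_ch w i j n
  | top F =>
    cases y with
    | low G' => exact flip (sup_low_top w G' F hx)
    | mid => exact flip (sup_mid_top w F hx)
    | top F' => exact sup_top_top w F F' hx
    | ch i j n => exact sup_top_ch w F i j n
  | ch i j n =>
    cases y with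
    | low G' => exact flip (sup_low_ch w G' i j n hx)
    | mid => exact flip (sup_mid_ch w i j n)
    | top F => exact flip (sup_top_ch w F i j n)
    | ch i' j' n' => exact sup_ch_ch w i j n i' j' n' hx hy

end Pool.Agent.DFM.H51
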